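import Pool.Agent.Q70.HardyJoint

/-!
# Joint return times along functions of a Hardy field need not be thick

The Hardy field of the rational functions of `√t` contains `f₁(t) = t ^ (3/2)` and
`f₂(t) = α t ^ (3/2) + t`.  For irrational `α` every integer combination of derivatives of `f₁`
and `f₂` tends to `0` or to infinity in absolute value, but there is a set `E` of positive upper
density for which `R_{f₁}(E) ∩ R_{f₂}(E)` contains no interval of more than `L` consecutive
integers.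
-/

open Filter Topology
open Q70.BohrThick Q70.Hardy

/-- **Disproof.**  For every irrational `α` the pair `t ^ (3/2)`, `α t ^ (3/2) + t` of functions
of the Hardy field `sqrtField` satisfies the hypothesis on `S(f₁, f₂)`, and some set of positive
upper density has a joint return set without intervals of more than `L` consecutive integers.
Hence the statement of Q1 is false. -/
theorem Pool.Agent.Results.MP_121ecb_an.NotThick.result :
    (∀ α : ℝ, Irrational α → ∃ f : Fin 2 → ℝ → ℝ,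
      f = ![fun t : ℝ => t ^ (3 / 2 : ℝ), fun t : ℝ => α * t ^ (3 / 2 : ℝ) + t] ∧
      IsHardyField sqrtField ∧ (∀ i, (f i : Germ (atTop : Filter ℝ) ℝ) ∈ sqrtField) ∧
      DerivativeCondition f ∧
      ∃ E : Set ℕ, (∀ m ∈ E, 1 ≤ m) ∧ 0 < upperDensity E ∧
        ∃ L : ℕ, ∀ a : ℕ, ∃ i ≤ L, a + i ∉ ⋂ j, returnSet (f j) E) ∧
    ¬ ∀ (H : Subring (Germ (atTop : Filter ℝ) ℝ)), IsHardyField H →
      ∀ (k : ℕ), 1 ≤ k → ∀ f : Fin k → ℝ → ℝ,
        (∀ i, (f i : Germ (atTop : Filter ℝ) ℝ) ∈ H) → DerivativeCondition f →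
        ∀ E : Set ℕ, (∀ m ∈ E, 1 ≤ m) → 0 < upperDensity E →
          Thick (⋂ j, returnSet (f j) E) := by
  have key : ∀ α : ℝ, Irrational α → ∃ f : Fin 2 → ℝ → ℝ,
      f = ![fun t : ℝ => t ^ (3 / 2 : ℝ), fun t : ℝ => α * t ^ (3 / 2 : ℝ) + t] ∧
      IsHardyField sqrtField ∧ (∀ i, (f i : Germ (atTop : Filter ℝ) ℝ) ∈ sqrtField) ∧
      DerivativeCondition f ∧
      ∃ E : Set ℕ, (∀ m ∈ E, 1 ≤ m) ∧ 0 < upperDensity E ∧
        ∃ L : ℕ, ∀ a : ℕ, ∃ i ≤ L, a + i ∉ ⋂ j, returnSet (f j) E := by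
    intro α hα
    refine ⟨_, rfl, isHardyField_sqrtField, ?_, derivativeCondition hα, ?_⟩
    · intro i
      fin_cases i
      · exact mem_sqrtField_one
      · exact mem_sqrtField_two α
    · obtain ⟨E, hE1, hE, L, hL⟩ := exists_set α
      refine ⟨E, hE1, hE, L, fun a => ?_⟩
      obtain ⟨i, hi, hni⟩ := hL a
      refine ⟨i, hi, fun hmem => hni ?_⟩
      rw [Set.mem_iInter] at hmem
      exact ⟨hmem 0, hmem 1⟩
  refine ⟨key, ?_⟩
  intro h
  obtain ⟨f, -, hH, hf, hD, E, hE1, hE, L, hL⟩ := key (Real.sqrt 2) irrational_sqrt_two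
  obtain ⟨a, -, ha⟩ := h sqrtField hH 2 (by norm_num) f hf hD E hE1 hE L
  obtain ⟨i, hi, hni⟩ := hL a
  exact hni (ha i hi)
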